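import Pool.Agent.H239.RangeBase

/-!
# MP_9bce2c_an: small positive exponents are not monotonic

For `0 < p ≤ 1/41` and every `q` in `[1, ∞]` the weighted power mean with exponent `p` is not
monotonic with respect to `δ_q`.  The counterexamples are `2 × 2` matrices: `X` and `Y` are close
to two rank one projections at a small angle, and the mean with `t = 1/2` has small norm.
-/

set_option autoImplicit false

namespace Pool.Agent.Results.MP_9bce2c_an.SmallExponent

open Matrix Finset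
open scoped ENNReal ComplexOrder
open Pool.Agent.Results.MP_9bce2c_an.SquareRootMean Pool.Agent.H239.RangeBase

variable {n : ℕ}

lemma abs_le_lq (q : ℝ≥0∞) [hq : Fact (1 ≤ q)] (a : Fin n → ℝ) (i : Fin n) :
    |a i| ≤ lq q a := by
  have := PiLp.norm_apply_le (p := q) (WithLp.toLp q a : PiLp q (fun _ : Fin n => ℝ)) i
  simpa [lq] using this

lemma lq_pair (q : ℝ≥0∞) [hq : Fact (1 ≤ q)] (d : ℝ) (hd : 0 ≤ d) :
    lq q (![d, -d] : Fin 2 → ℝ) ≤ 2 * d := by
  by_cases ht : q = ∞
  · subst ht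
    rw [lq_top]
    refine ciSup_le fun i => ?_
    have e0 : |d| ≤ 2 * d := by rw [abs_of_nonneg hd]; linarith
    have e1 : |-d| ≤ 2 * d := by rw [abs_neg]; exact e0
    fin_cases i
    · exact e0
    · exact e1
  · have h1 : 1 ≤ q.toReal := toReal_ge hq.out ht
    have h0 : 0 < q.toReal := by linarith
    rw [lq_fin h0, Fin.sum_univ_two]
    simp only [Matrix.cons_val_zero, Matrix.cons_val_one]
    rw [abs_neg, abs_of_nonneg hd]
    have h3 : 0 ≤ d ^ q.toReal := Real.rpow_nonneg hd _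
    have h2 : d ^ q.toReal + d ^ q.toReal ≤ (2 * d) ^ q.toReal := by
      rw [Real.mul_rpow (by norm_num) hd]
      have h4 : (2 : ℝ) ≤ 2 ^ q.toReal := by
        calc (2 : ℝ) = 2 ^ (1 : ℝ) := by rw [Real.rpow_one]
          _ ≤ _ := Real.rpow_le_rpow_of_exponent_le (by norm_num) h1
      nlinarith
    calc (d ^ q.toReal + d ^ q.toReal) ^ (1 / q.toReal)
        ≤ ((2 * d) ^ q.toReal) ^ (1 / q.toReal) :=
          Real.rpow_le_rpow (by positivity) h2 (by positivity)
      _ = 2 * d := by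
          rw [← Real.rpow_mul (by positivity), mul_one_div_cancel h0.ne', Real.rpow_one]

lemma matPow_isHermitian {A : Matrix (Fin n) (Fin n) ℂ} (p : ℝ) : (matPow A p).IsHermitian :=
  IsSelfAdjoint.cfc

lemma dg_nonneg {V G : Matrix (Fin n) (Fin n) ℂ} (hG : G.PosSemidef) (i : Fin n) :
    0 ≤ dg V G i :=
  (Complex.le_def.mp ((hG.conjTranspose_mul_mul_same V).diag_nonneg (i := i))).1

lemma dg_one {V : Matrix (Fin n) (Fin n) ℂ} (hV : Vᴴ * V = 1) (i : Fin n) : dg V 1 i = 1 := by
  simp [dg, hV]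

/-- **Theorem.** For `0 < p ≤ 1/41` and every `q ∈ [1, ∞]` the weighted power mean with exponent
`p` is not monotonic with respect to `δ_q`. -/
theorem result (p : ℝ) (hp : 0 < p) (hp1 : p ≤ 1 / 41) (q : ℝ≥0∞) (hq : 1 ≤ q) :
    ¬ Monotonic p q := by
  have : Fact (1 ≤ q) := ⟨hq⟩
  intro hmon
  set E : ℝ := 1 / 1000 with hE
  set ε : ℝ := E ^ (1 / p) with hε
  have hr : (41 : ℝ) ≤ 1 / p := by
    rw [le_div_iff₀ hp]
    linarith
  have hE0 : 0 < E := by norm_num [hE]
  have hε0 : 0 < ε := Real.rpow_pos_of_pos hE0 _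
  have hε1 : ε ≤ 1 := Real.rpow_le_one hE0.le (by norm_num [hE]) (by positivity)
  have hεp : ε ^ p = E := by
    rw [hε, ← Real.rpow_mul hE0.le, one_div_mul_cancel hp.ne', Real.rpow_one]
  set c0 : ℝ := (49001 / 50000) ^ (41 : ℕ) with hc0
  have hpow : ((49 + E) / 50) ^ (1 / p) ≤ c0 := by
    have e : (49 + E) / 50 = (49001 / 50000 : ℝ) := by norm_num [hE]
    rw [e, hc0, ← Real.rpow_natCast]
    exact Real.rpow_le_rpow_of_exponent_ge (by norm_num) (by norm_num) (by exact_mod_cast hr)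
  have hc1 : c0 < 11 / 25 := by rw [hc0]; norm_num
  set V : Matrix (Fin 2) (Fin 2) ℂ := !![24 / 25, -(7 / 25); 7 / 25, 24 / 25] with hV
  have hVV : Vᴴ * V = 1 := by
    ext i j
    fin_cases i <;> fin_cases j <;>
      simp [hV, Matrix.mul_apply, Fin.sum_univ_two, map_ofNat] <;> norm_num
  set U : Matrix (Fin 2) (Fin 2) ℂ := !![4 / 5, 3 / 5; -(3 / 5), 4 / 5] with hU
  have hUU : Uᴴ * U = 1 := by
    ext i j
    fin_cases i <;> fin_cases j <;>
      simp [hU, Matrix.mul_apply, Fin.sum_univ_two, map_ofNat] <;> norm_num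
  set dx : Fin 2 → ℝ := ![1, ε] with hdx
  have hdx0 : ∀ i, 0 < dx i := by
    intro i
    fin_cases i
    · simp [hdx]
    · simpa [hdx] using hε0
  set X : Matrix (Fin 2) (Fin 2) ℂ := diagonal (fun i => ((dx i : ℝ) : ℂ)) with hX
  set Y : Matrix (Fin 2) (Fin 2) ℂ := V * diagonal (fun i => ((dx i : ℝ) : ℂ)) * Vᴴ with hY
  set y : Fin 2 → ℂ := ![24 / 25, 7 / 25] with hy
  have hXpos : X.PosDef := by
    rw [hX, posDef_diagonal_iff]
    intro i
    exact_mod_cast hdx0 i
  have hYpos : Y.PosDef := by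
    have e : Y = ε • (1 : Matrix (Fin 2) (Fin 2) ℂ) + (1 - ε) • Matrix.vecMulVec y (star y) := by
      rw [hY]
      ext i j
      rw [Matrix.mul_apply, Fin.sum_univ_two, Matrix.mul_diagonal, Matrix.mul_diagonal,
        Matrix.add_apply, Matrix.smul_apply, Matrix.smul_apply, Matrix.vecMulVec_apply]
      fin_cases i <;> fin_cases j <;> simp [hV, hdx, hy] <;> ring
    rw [e]
    exact (PosDef.one.smul hε0).add_posSemidef
      ((Matrix.posSemidef_vecMulVec_self_star y).smul (by linarith))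
  set dE : Fin 2 → ℝ := ![1, E] with hdE
  have hdxE : (fun i => ((dx i ^ p : ℝ) : ℂ)) = fun i => ((dE i : ℝ) : ℂ) := by
    funext i
    fin_cases i
    · simp [hdx, hdE]
    · simp [hdx, hdE, hεp]
  have hXp : matPow X p = diagonal (fun i => ((dE i : ℝ) : ℂ)) := by
    rw [hX, matPow_diag, hdxE]
  have hYp : matPow Y p = V * diagonal (fun i => ((dE i : ℝ) : ℂ)) * Vᴴ := by
    rw [← hdxE]
    exact cfc_conj hVV hY _
  have hM1 : powerMean p 1 X Y = X := by
    unfold powerMean
    rw [one_smul, sub_self, zero_smul, add_zero, hX, matPow_diag, matPow_diag]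
    congr 1
    funext i
    rw [← Real.rpow_mul (hdx0 i).le, mul_one_div_cancel hp.ne', Real.rpow_one]
  set S : Matrix (Fin 2) (Fin 2) ℂ :=
    (1 / 2 : ℝ) • matPow X p + (1 - 1 / 2 : ℝ) • matPow Y p with hS
  set M := matPow S (1 / p) with hM
  have hMh : powerMean p (1 / 2) X Y = M := rfl
  have hSH : S.IsHermitian := by
    rw [hS]
    exact ((matPow_isHermitian p).smul (IsSelfAdjoint.all _)).add
      ((matPow_isHermitian p).smul (IsSelfAdjoint.all _))
  have hSc : ((1 : ℝ) • S + (-(E / 50)) • (1 : Matrix (Fin 2) (Fin 2) ℂ)).PosSemidef := by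
    have e : (1 : ℝ) • S + (-(E / 50)) • (1 : Matrix (Fin 2) (Fin 2) ℂ) =
        (1 / 2 : ℝ) • Matrix.vecMulVec (![1, 0] : Fin 2 → ℂ) (star ![1, 0]) +
        (1 / 2 : ℝ) • Matrix.vecMulVec y (star y) +
        (12 * E / 625 : ℝ) • Matrix.vecMulVec (![1, -7] : Fin 2 → ℂ) (star ![1, -7]) := by
      rw [hS, hXp, hYp]
      ext i j
      simp only [Matrix.add_apply, Matrix.smul_apply, Matrix.vecMulVec_apply]
      rw [Matrix.mul_apply, Fin.sum_univ_two, Matrix.mul_diagonal, Matrix.mul_diagonal,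
        Matrix.diagonal_apply]
      clear_value E
      fin_cases i <;> fin_cases j <;> simp [hV, hdE, hy] <;> ring
    rw [e]
    exact (((Matrix.posSemidef_vecMulVec_self_star _).smul (by norm_num)).add
      ((Matrix.posSemidef_vecMulVec_self_star _).smul (by norm_num))).add
      ((Matrix.posSemidef_vecMulVec_self_star _).smul (by positivity))
  have hSd : ((-1 : ℝ) • S + ((49 + E) / 50) • (1 : Matrix (Fin 2) (Fin 2) ℂ)).PosSemidef := by
    have e : (-1 : ℝ) • S + ((49 + E) / 50) • (1 : Matrix (Fin 2) (Fin 2) ℂ) =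
        (12 * (1 - E) / 625 : ℝ) • Matrix.vecMulVec (![1, -7] : Fin 2 → ℂ) (star ![1, -7]) := by
      rw [hS, hXp, hYp]
      ext i j
      simp only [Matrix.add_apply, Matrix.smul_apply, Matrix.vecMulVec_apply]
      rw [Matrix.mul_apply, Fin.sum_univ_two, Matrix.mul_diagonal, Matrix.mul_diagonal,
        Matrix.diagonal_apply]
      clear_value E
      fin_cases i <;> fin_cases j <;> simp [hV, hdE, hy] <;> ring
    rw [e]
    refine (Matrix.posSemidef_vecMulVec_self_star _).smul ?_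
    norm_num [hE]
  obtain ⟨W, hW, hSW⟩ := spec hSH
  set s := hSH.eigenvalues with hs
  have hs0 : ∀ i, 0 ≤ s i := fun i => by
    have := le_eig hW hSW 1 (-(E / 50)) hSc i
    have h5 : 0 ≤ E / 50 := by positivity
    linarith
  have hs1 : ∀ i, s i ≤ (49 + E) / 50 := fun i => by
    have := le_eig hW hSW (-1) ((49 + E) / 50) hSd i
    linarith
  have hMW : M = W * diagonal (fun i => ((s i ^ (1 / p) : ℝ) : ℂ)) * Wᴴ := cfc_conj hW hSW _
  have hMH : M.IsHermitian := matPow_isHermitian _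
  have g := fc_psd hW hSW hMW (-1) 0 c0 (fun i => by
    have h5 : s i ^ (1 / p) ≤ ((49 + E) / 50) ^ (1 / p) :=
      Real.rpow_le_rpow (hs0 i) (hs1 i) (by positivity)
    have h6 := h5.trans hpow
    linarith)
  have g0 := dg_nonneg (V := V) g 0
  rw [dg_add, dg_add, dg_smul, dg_smul, dg_smul] at g0
  simp only [Pi.add_apply, Pi.smul_apply, smul_eq_mul, dg_one hVV] at g0
  have hdY : dg V Y = dx := dg_diag hVV hY
  have hlow : 1 - c0 ≤ schatten q (M - Y) := by
    refine le_trans ?_ (schatten_ge q hVV (hMH.sub hYpos.1))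
    refine le_trans ?_ (abs_le_lq q _ 0)
    have h7 : M - Y = M + (-1 : ℝ) • Y := by rw [neg_one_smul, sub_eq_add_neg]
    rw [h7, dg_add, dg_smul, hdY]
    simp only [Pi.add_apply, Pi.smul_apply, smul_eq_mul]
    have h8 : dx 0 = 1 := by simp [hdx]
    rw [h8, ← abs_neg]
    refine le_trans ?_ (le_abs_self _)
    linarith
  have hupp : schatten q (X - Y) ≤ 14 / 25 := by
    have e : X - Y = U * diagonal (fun i => (((![(1 - ε) * (7 / 25), -((1 - ε) * (7 / 25))] :
        Fin 2 → ℝ) i : ℝ) : ℂ)) * Uᴴ := by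
      rw [hX, hY]
      ext i j
      rw [Matrix.sub_apply, Matrix.mul_apply, Fin.sum_univ_two, Matrix.mul_diagonal,
        Matrix.mul_diagonal, Matrix.mul_apply, Fin.sum_univ_two, Matrix.mul_diagonal,
        Matrix.mul_diagonal, Matrix.diagonal_apply]
      fin_cases i <;> fin_cases j <;> simp [hV, hU, hdx] <;> ring
    have h5 := schatten_le q hUU e (hXpos.1.sub hYpos.1)
    have h6 := lq_pair q ((1 - ε) * (7 / 25)) (mul_nonneg (by linarith) (by norm_num))
    have h7 : 2 * ((1 - ε) * (7 / 25)) ≤ 14 / 25 := by linarith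
    linarith
  have hcmp := hmon 2 X Y hXpos hYpos (a := 1 / 2) (b := 1) ⟨by norm_num, by norm_num⟩
    ⟨zero_le_one, le_refl 1⟩ (by norm_num)
  simp only [hM1, hMh] at hcmp
  have h9 : 1 - c0 ≤ 14 / 25 := hlow.trans (hcmp.trans hupp)
  linarith

end Pool.Agent.Results.MP_9bce2c_an.SmallExponent
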