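import Pool.Agent.H239.RangeBase

/-!
# Operator monotonicity and convexity of powers, in diagonal entries
-/

set_option autoImplicit false

namespace Pool.Agent.H422PM.TraceA

open Matrix Finset MeasureTheory
open scoped ENNReal ComplexOrder
open Pool.Agent.Results.MP_9bce2c_an.SquareRootMean Pool.Agent.H239.RangeBase

variable {n : ℕ}

lemma dg_nonneg {V G : Matrix (Fin n) (Fin n) ℂ} (hG : G.PosSemidef) (i : Fin n) :
    0 ≤ dg V G i :=
  (Complex.le_def.mp ((hG.conjTranspose_mul_mul_same V).diag_nonneg (i := i))).1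

lemma dg_one {V : Matrix (Fin n) (Fin n) ℂ} (hV : Vᴴ * V = 1) (i : Fin n) : dg V 1 i = 1 := by
  simp [dg, hV]

lemma dg_sub (V G H : Matrix (Fin n) (Fin n) ℂ) : dg V (G - H) = dg V G - dg V H := by
  funext i
  simp [dg, Matrix.mul_sub, Matrix.sub_mul]

lemma inv_anti {A B : Matrix (Fin n) (Fin n) ℂ} (hA : A.PosDef) (hAB : (B - A).PosSemidef) :
    (A⁻¹ - B⁻¹).PosSemidef := by
  have hB : B.PosDef := by
    have := hA.add_posSemidef hAB
    rwa [add_sub_cancel] at this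
  have hAi : A⁻¹.PosDef := hA.inv
  have h1 : (fromBlocks B (1 : Matrix (Fin n) (Fin n) ℂ) (1 : Matrix (Fin n) (Fin n) ℂ)ᴴ
      A⁻¹).PosSemidef := by
    letI := hAi.isUnit.invertible
    letI := hA.isUnit.invertible
    rw [PosDef.fromBlocks₂₂ _ _ hAi]
    simpa using hAB
  letI := hB.isUnit.invertible
  rw [PosDef.fromBlocks₁₁ _ _ hB] at h1
  simpa using h1

lemma blk {M : Matrix (Fin n) (Fin n) ℂ} (hM : M.PosDef) :
    (fromBlocks M (1 : Matrix (Fin n) (Fin n) ℂ) (1 : Matrix (Fin n) (Fin n) ℂ)ᴴ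
      M⁻¹).PosSemidef := by
  letI := hM.isUnit.invertible
  rw [PosDef.fromBlocks₁₁ _ _ hM]
  simpa using PosSemidef.zero

lemma comb_posDef {A B : Matrix (Fin n) (Fin n) ℂ} (hA : A.PosDef) (hB : B.PosDef) {θ : ℝ}
    (h0 : 0 < θ) (h1 : θ ≤ 1) : (θ • A + (1 - θ) • B).PosDef :=
  (hA.smul h0).add_posSemidef (hB.posSemidef.smul (by linarith))

lemma inv_conv {A B : Matrix (Fin n) (Fin n) ℂ} (hA : A.PosDef) (hB : B.PosDef) {θ : ℝ}
    (h0 : 0 < θ) (h1 : θ ≤ 1) :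
    (θ • A⁻¹ + (1 - θ) • B⁻¹ - (θ • A + (1 - θ) • B)⁻¹).PosSemidef := by
  have h2 := ((blk hA).smul h0.le).add ((blk hB).smul (sub_nonneg.2 h1))
  rw [fromBlocks_smul, fromBlocks_smul, fromBlocks_add] at h2
  have e : θ • (1 : Matrix (Fin n) (Fin n) ℂ) + (1 - θ) • (1 : Matrix (Fin n) (Fin n) ℂ) = 1 := by
    rw [← add_smul]
    simp
  have hC := comb_posDef hA hB h0 h1
  simp only [conjTranspose_one, e] at h2
  letI := hC.isUnit.invertible
  have h3 := (PosDef.fromBlocks₁₁ (1 : Matrix (Fin n) (Fin n) ℂ)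
    (θ • A⁻¹ + (1 - θ) • B⁻¹) hC).1 (by simpa using h2)
  simpa using h3

/-- The weights. -/
noncomputable def wt (V W : Matrix (Fin n) (Fin n) ℂ) (i j : Fin n) : ℝ :=
  Complex.normSq ((Vᴴ * W) i j)

lemma dg_eq_sum (V W : Matrix (Fin n) (Fin n) ℂ) (d : Fin n → ℝ) (i : Fin n) :
    dg V (W * diagonal (fun i => (d i : ℂ)) * Wᴴ) i = ∑ j, wt V W i j * d j := by
  unfold dg
  have : Vᴴ * (W * diagonal (fun i => (d i : ℂ)) * Wᴴ) * V
      = (Vᴴ * W) * diagonal (fun i => (d i : ℂ)) * (Vᴴ * W)ᴴ := by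
    rw [conjTranspose_mul, conjTranspose_conjTranspose]
    simp only [Matrix.mul_assoc]
  rw [this, Matrix.mul_apply, Complex.re_sum]
  refine sum_congr rfl fun j _ => ?_
  rw [Matrix.mul_diagonal, conjTranspose_apply, Complex.star_def, mul_right_comm,
    Complex.mul_conj]
  simp [wt]

lemma wt_nonneg (V W : Matrix (Fin n) (Fin n) ℂ) (i j : Fin n) : 0 ≤ wt V W i j :=
  Complex.normSq_nonneg _

lemma wt_row {V W : Matrix (Fin n) (Fin n) ℂ} (hV : Vᴴ * V = 1) (hW : Wᴴ * W = 1) (i : Fin n) :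
    ∑ j, wt V W i j = 1 := by
  have hW' : W * Wᴴ = 1 := mul_eq_one_comm.mp hW
  have h := dg_eq_sum V W (fun _ => 1) i
  have e : W * diagonal (fun _ : Fin n => ((1 : ℝ) : ℂ)) * Wᴴ = 1 := by
    simp [hW']
  rw [e, dg_one hV] at h
  simpa using h.symm

lemma wt_symm (V W : Matrix (Fin n) (Fin n) ℂ) (i j : Fin n) : wt V W i j = wt W V j i := by
  unfold wt
  have : (Vᴴ * W) i j = star ((Wᴴ * V) j i) := by
    rw [← conjTranspose_apply, conjTranspose_mul, conjTranspose_conjTranspose]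
  rw [this, Complex.star_def, Complex.normSq_conj]

lemma wt_col {V W : Matrix (Fin n) (Fin n) ℂ} (hV : Vᴴ * V = 1) (hW : Wᴴ * W = 1) (j : Fin n) :
    ∑ i, wt V W i j = 1 := by
  simp_rw [wt_symm V W]
  exact wt_row hW hV j

/-- The resolvent of a diagonalised matrix. -/
lemma res_eq {W A : Matrix (Fin n) (Fin n) ℂ} {d : Fin n → ℝ} (hW : Wᴴ * W = 1)
    (hA : A = W * diagonal (fun i => (d i : ℂ)) * Wᴴ) (hd : ∀ i, 0 ≤ d i) {t : ℝ} (ht : 0 < t) :
    (A + t • (1 : Matrix (Fin n) (Fin n) ℂ))⁻¹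
      = W * diagonal (fun i => (((t + d i)⁻¹ : ℝ) : ℂ)) * Wᴴ := by
  have hW' : W * Wᴴ = 1 := mul_eq_one_comm.mp hW
  apply Matrix.inv_eq_right_inv
  have e : A + t • (1 : Matrix (Fin n) (Fin n) ℂ)
      = W * diagonal (fun i => ((t + d i : ℝ) : ℂ)) * Wᴴ := by
    have e0 : diagonal (fun i => ((t + d i : ℝ) : ℂ))
        = diagonal (fun i => (d i : ℂ)) + t • (1 : Matrix (Fin n) (Fin n) ℂ) := by
      ext i j
      by_cases hij : i = j
      · subst hij
        simp [add_comm]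
      · simp [hij]
    rw [e0, Matrix.mul_add, Matrix.add_mul, ← hA]
    simp [hW']
  rw [e]
  calc W * diagonal (fun i => ((t + d i : ℝ) : ℂ)) * Wᴴ *
        (W * diagonal (fun i => (((t + d i)⁻¹ : ℝ) : ℂ)) * Wᴴ)
      = W * diagonal (fun i => ((t + d i : ℝ) : ℂ)) * (Wᴴ * W) *
        diagonal (fun i => (((t + d i)⁻¹ : ℝ) : ℂ)) * Wᴴ := by simp only [Matrix.mul_assoc]
    _ = W * (diagonal (fun i => ((t + d i : ℝ) : ℂ)) *
        diagonal (fun i => (((t + d i)⁻¹ : ℝ) : ℂ))) * Wᴴ := by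
          rw [hW, Matrix.mul_one, Matrix.mul_assoc W]
    _ = 1 := by
      rw [diagonal_mul_diagonal]
      have : (fun i => ((t + d i : ℝ) : ℂ) * (((t + d i)⁻¹ : ℝ) : ℂ)) = fun _ => 1 := by
        funext i
        have h : t + d i ≠ 0 := by have := hd i; positivity
        rw [← Complex.ofReal_mul, mul_inv_cancel₀ h, Complex.ofReal_one]
      rw [this]
      simp [hW']

/-- The diagonal entry of the resolvent. -/
noncomputable def rs (V A : Matrix (Fin n) (Fin n) ℂ) (i : Fin n) (t : ℝ) : ℝ :=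
  dg V ((A + t • (1 : Matrix (Fin n) (Fin n) ℂ))⁻¹) i

/-- Representation of powers with exponent in `(0, 1)`. -/
lemma rep01 {p : ℝ} {μ : Measure ℝ}
    (hμ : ∀ x ∈ Set.Ici (0 : ℝ), (IntegrableOn (fun t => Real.rpowIntegrand₀₁ p t x) (Set.Ioi 0) μ)
      ∧ x ^ p = ∫ t in Set.Ioi 0, Real.rpowIntegrand₀₁ p t x ∂μ)
    {V A : Matrix (Fin n) (Fin n) ℂ} (hV : Vᴴ * V = 1) (hA : A.PosSemidef) (i : Fin n) :
    IntegrableOn (fun t => t ^ p * (t⁻¹ - rs V A i t)) (Set.Ioi 0) μ ∧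
      dg V (matPow A p) i = ∫ t in Set.Ioi 0, t ^ p * (t⁻¹ - rs V A i t) ∂μ := by
  obtain ⟨W, hW, hAW⟩ := spec hA.1
  set d := hA.1.eigenvalues with hd
  have hd0 : ∀ j, 0 ≤ d j := hA.eigenvalues_nonneg
  have hrow := wt_row hV hW i
  have hfun : Set.EqOn (fun t => ∑ j, wt V W i j * Real.rpowIntegrand₀₁ p t (d j))
      (fun t => t ^ p * (t⁻¹ - rs V A i t)) (Set.Ioi 0) := by
    intro t ht
    have ht0 : (0 : ℝ) < t := ht
    simp only [rs]
    rw [res_eq hW hAW hd0 ht0, dg_eq_sum]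
    simp only [Real.rpowIntegrand₀₁]
    calc ∑ j, wt V W i j * (t ^ p * (t⁻¹ - (t + d j)⁻¹))
        = t ^ p * (t⁻¹ * ∑ j, wt V W i j - ∑ j, wt V W i j * (t + d j)⁻¹) := by
          rw [mul_sum, ← sum_sub_distrib, mul_sum]
          refine sum_congr rfl fun j _ => ?_
          ring
      _ = _ := by rw [hrow, mul_one]
  have hint : IntegrableOn (fun t => ∑ j, wt V W i j * Real.rpowIntegrand₀₁ p t (d j))
      (Set.Ioi 0) μ :=
    integrable_finset_sum _ fun j _ => ((hμ (d j) (hd0 j)).1).const_mul _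
  constructor
  · exact hint.congr_fun hfun measurableSet_Ioi
  · rw [← setIntegral_congr_fun measurableSet_Ioi hfun]
    rw [integral_finset_sum _ fun j _ => ((hμ (d j) (hd0 j)).1).const_mul _]
    unfold matPow
    rw [cfc_conj hW hAW, dg_eq_sum]
    refine sum_congr rfl fun j _ => ?_
    rw [integral_const_mul, ← (hμ (d j) (hd0 j)).2]

/-- Representation of powers with exponent in `(1, 2)`. -/
lemma rep12 {p : ℝ} {μ : Measure ℝ}
    (hμ : ∀ x ∈ Set.Ici (0 : ℝ), (IntegrableOn (fun t => Real.rpowIntegrand₁₂ p t x) (Set.Ioi 0) μ)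
      ∧ x ^ p = ∫ t in Set.Ioi 0, Real.rpowIntegrand₁₂ p t x ∂μ)
    {V A : Matrix (Fin n) (Fin n) ℂ} (hV : Vᴴ * V = 1) (hA : A.PosSemidef) (i : Fin n) :
    IntegrableOn (fun t => t ^ (p - 1) * (t⁻¹ * dg V A i + t * rs V A i t - 1)) (Set.Ioi 0) μ ∧
      dg V (matPow A p) i
        = ∫ t in Set.Ioi 0, t ^ (p - 1) * (t⁻¹ * dg V A i + t * rs V A i t - 1) ∂μ := by
  obtain ⟨W, hW, hAW⟩ := spec hA.1
  set d := hA.1.eigenvalues with hd
  have hd0 : ∀ j, 0 ≤ d j := hA.eigenvalues_nonneg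
  have hrow := wt_row hV hW i
  have hdA : dg V A i = ∑ j, wt V W i j * d j := by
    conv_lhs => rw [hAW]
    exact dg_eq_sum V W d i
  have hfun : Set.EqOn (fun t => ∑ j, wt V W i j * Real.rpowIntegrand₁₂ p t (d j))
      (fun t => t ^ (p - 1) * (t⁻¹ * dg V A i + t * rs V A i t - 1)) (Set.Ioi 0) := by
    intro t ht
    have ht0 : (0 : ℝ) < t := ht
    simp only [rs]
    rw [res_eq hW hAW hd0 ht0, dg_eq_sum, hdA]
    simp only [Real.rpowIntegrand₁₂]
    calc ∑ j, wt V W i j * (t ^ (p - 1) * (t⁻¹ * d j + t * (t + d j)⁻¹ - 1))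
        = t ^ (p - 1) * (t⁻¹ * ∑ j, wt V W i j * d j + t * ∑ j, wt V W i j * (t + d j)⁻¹
            - ∑ j, wt V W i j) := by
          rw [mul_sum, mul_sum, ← sum_add_distrib, ← sum_sub_distrib, mul_sum]
          refine sum_congr rfl fun j _ => ?_
          ring
      _ = _ := by rw [hrow]
  have hint : IntegrableOn (fun t => ∑ j, wt V W i j * Real.rpowIntegrand₁₂ p t (d j))
      (Set.Ioi 0) μ :=
    integrable_finset_sum _ fun j _ => ((hμ (d j) (hd0 j)).1).const_mul _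
  constructor
  · exact hint.congr_fun hfun measurableSet_Ioi
  · rw [← setIntegral_congr_fun measurableSet_Ioi hfun]
    rw [integral_finset_sum _ fun j _ => ((hμ (d j) (hd0 j)).1).const_mul _]
    unfold matPow
    rw [cfc_conj hW hAW, dg_eq_sum]
    refine sum_congr rfl fun j _ => ?_
    rw [integral_const_mul, ← (hμ (d j) (hd0 j)).2]

lemma add_t_posDef {A : Matrix (Fin n) (Fin n) ℂ} (hA : A.PosSemidef) {t : ℝ} (ht : 0 < t) :
    (A + t • (1 : Matrix (Fin n) (Fin n) ℂ)).PosDef := by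
  rw [add_comm]
  exact (PosDef.one.smul ht).add_posSemidef hA

lemma matPow_isHermitian {A : Matrix (Fin n) (Fin n) ℂ} (p : ℝ) : (matPow A p).IsHermitian :=
  cfc_predicate _ A

lemma psd_of_dg {G : Matrix (Fin n) (Fin n) ℂ} (hG : G.IsHermitian)
    (h : ∀ V : Matrix (Fin n) (Fin n) ℂ, Vᴴ * V = 1 → ∀ i, 0 ≤ dg V G i) : G.PosSemidef := by
  obtain ⟨W, hW, hGW⟩ := spec hG
  rw [hG.posSemidef_iff_eigenvalues_nonneg]
  intro i
  have := h W hW i
  rw [dg_diag hW hGW] at this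
  exact this

/-- Powers with exponent in `(0, 1)` are operator monotone. -/
lemma pow_mono {p : ℝ} (hp : p ∈ Set.Ioo (0 : ℝ) 1) {A B : Matrix (Fin n) (Fin n) ℂ}
    (hA : A.PosSemidef) (hAB : (B - A).PosSemidef) :
    (matPow B p - matPow A p).PosSemidef := by
  obtain ⟨μ, hμ⟩ := Real.exists_measure_rpow_eq_integral_rpowIntegrand₀₁ hp
  have hB : B.PosSemidef := by
    have := hA.add hAB
    rwa [add_sub_cancel] at this
  refine psd_of_dg ((matPow_isHermitian p).sub (matPow_isHermitian p)) fun V hV i => ?_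
  obtain ⟨i1, e1⟩ := rep01 hμ hV hA i
  obtain ⟨i2, e2⟩ := rep01 hμ hV hB i
  rw [dg_sub, Pi.sub_apply, e1, e2, sub_nonneg]
  refine setIntegral_mono_on i1 i2 measurableSet_Ioi fun t ht => ?_
  have ht0 : (0 : ℝ) < t := ht
  have h1 := dg_nonneg (V := V) (inv_anti (A := A + t • (1 : Matrix (Fin n) (Fin n) ℂ))
    (B := B + t • (1 : Matrix (Fin n) (Fin n) ℂ)) (add_t_posDef hA ht0)
    (by rwa [add_sub_add_right_eq_sub])) i
  rw [dg_sub, Pi.sub_apply] at h1
  refine mul_le_mul_of_nonneg_left ?_ (Real.rpow_nonneg ht0.le _)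
  unfold rs
  linarith

/-- Powers with exponent in `(1, 2)` are operator convex. -/
lemma pow_conv {p : ℝ} (hp : p ∈ Set.Ioo (1 : ℝ) 2) {A B : Matrix (Fin n) (Fin n) ℂ}
    (hA : A.PosSemidef) (hB : B.PosSemidef) {θ : ℝ} (h0 : 0 < θ) (h1 : θ ≤ 1)
    {V : Matrix (Fin n) (Fin n) ℂ} (hV : Vᴴ * V = 1) (i : Fin n) :
    dg V (matPow (θ • A + (1 - θ) • B) p) i
      ≤ θ * dg V (matPow A p) i + (1 - θ) * dg V (matPow B p) i := by
  obtain ⟨μ, hμ⟩ := Real.exists_measure_rpow_eq_integral_rpowIntegrand₁₂ hp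
  have hC : (θ • A + (1 - θ) • B).PosSemidef :=
    (hA.smul h0.le).add (hB.smul (sub_nonneg.2 h1))
  obtain ⟨i1, e1⟩ := rep12 hμ hV hA i
  obtain ⟨i2, e2⟩ := rep12 hμ hV hB i
  obtain ⟨i3, e3⟩ := rep12 hμ hV hC i
  rw [e1, e2, e3, ← integral_const_mul, ← integral_const_mul, ← integral_add
    (i1.const_mul θ) (i2.const_mul (1 - θ))]
  refine setIntegral_mono_on i3 ((i1.const_mul θ).add (i2.const_mul (1 - θ)))
    measurableSet_Ioi fun t ht => ?_
  have ht0 : (0 : ℝ) < t := ht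
  have h2 := dg_nonneg (V := V) (inv_conv (add_t_posDef hA ht0) (add_t_posDef hB ht0) h0 h1) i
  have e : θ • (A + t • (1 : Matrix (Fin n) (Fin n) ℂ))
      + (1 - θ) • (B + t • (1 : Matrix (Fin n) (Fin n) ℂ))
      = (θ • A + (1 - θ) • B) + t • (1 : Matrix (Fin n) (Fin n) ℂ) := by
    module
  rw [e, dg_sub, dg_add, dg_smul, dg_smul] at h2
  simp only [Pi.sub_apply, Pi.add_apply, Pi.smul_apply, smul_eq_mul] at h2
  have h3 : dg V (θ • A + (1 - θ) • B) i = θ * dg V A i + (1 - θ) * dg V B i := by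
    rw [dg_add, dg_smul, dg_smul]
    simp
  rw [h3]
  have h4 : 0 ≤ t ^ (p - 1) := Real.rpow_nonneg ht0.le _
  have h5 : rs V (θ • A + (1 - θ) • B) i t ≤ θ * rs V A i t + (1 - θ) * rs V B i t := by
    unfold rs
    linarith
  calc t ^ (p - 1) * (t⁻¹ * (θ * dg V A i + (1 - θ) * dg V B i)
        + t * rs V (θ • A + (1 - θ) • B) i t - 1)
      ≤ t ^ (p - 1) * (t⁻¹ * (θ * dg V A i + (1 - θ) * dg V B i)
        + t * (θ * rs V A i t + (1 - θ) * rs V B i t) - 1) := by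
        refine mul_le_mul_of_nonneg_left ?_ h4
        have := mul_le_mul_of_nonneg_left h5 ht0.le
        linarith
    _ = _ := by ring

end Pool.Agent.H422PM.TraceA
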