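import Pool.Agent.H422PM.TraceA

/-!
# Trace inequalities for the power mean in the trace norm
-/

set_option autoImplicit false

namespace Pool.Agent.H422PM.TraceB

open Matrix Finset MeasureTheory
open scoped ENNReal ComplexOrder
open Pool.Agent.Results.MP_9bce2c_an.SquareRootMean Pool.Agent.H239.RangeBase
open Pool.Agent.H422PM.TraceA

variable {n : ℕ}

/-- Real part of the trace. -/
noncomputable def tr (G : Matrix (Fin n) (Fin n) ℂ) : ℝ := G.trace.re

lemma tr_add (G H : Matrix (Fin n) (Fin n) ℂ) : tr (G + H) = tr G + tr H := by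
  simp [tr, Matrix.trace_add]

lemma tr_sub (G H : Matrix (Fin n) (Fin n) ℂ) : tr (G - H) = tr G - tr H := by
  simp [tr, Matrix.trace_sub]

lemma tr_smul (c : ℝ) (G : Matrix (Fin n) (Fin n) ℂ) : tr (c • G) = c * tr G := by
  simp [tr, Matrix.trace_smul]

lemma sum_dg {V : Matrix (Fin n) (Fin n) ℂ} (hV : Vᴴ * V = 1) (G : Matrix (Fin n) (Fin n) ℂ) :
    ∑ i, dg V G i = tr G := by
  have hV' : V * Vᴴ = 1 := mul_eq_one_comm.mp hV
  have h : (Vᴴ * G * V).trace = G.trace := by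
    rw [Matrix.trace_mul_comm, ← Matrix.mul_assoc, hV', Matrix.one_mul]
  unfold tr dg
  rw [← h, Matrix.trace, Complex.re_sum]
  rfl

lemma tr_mul {W P : Matrix (Fin n) (Fin n) ℂ} {d : Fin n → ℝ}
    (hP : P = W * diagonal (fun i => (d i : ℂ)) * Wᴴ) (Q : Matrix (Fin n) (Fin n) ℂ) :
    tr (P * Q) = ∑ i, d i * dg W Q i := by
  have h : (P * Q).trace = (diagonal (fun i => (d i : ℂ)) * (Wᴴ * Q * W)).trace := by
    rw [hP]
    rw [show W * diagonal (fun i => (d i : ℂ)) * Wᴴ * Q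
      = W * (diagonal (fun i => (d i : ℂ)) * (Wᴴ * Q)) by simp only [Matrix.mul_assoc]]
    rw [Matrix.trace_mul_comm]
    simp only [Matrix.mul_assoc]
  unfold tr
  rw [h, Matrix.trace, Complex.re_sum]
  refine sum_congr rfl fun i _ => ?_
  simp [dg, Matrix.diag_apply, Matrix.diagonal_mul]

lemma tr_mul_nonneg {P Q : Matrix (Fin n) (Fin n) ℂ} (hP : P.PosSemidef) (hQ : Q.PosSemidef) :
    0 ≤ tr (P * Q) := by
  obtain ⟨W, _, hPW⟩ := spec hP.1
  rw [tr_mul hPW]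
  exact sum_nonneg fun i _ => mul_nonneg (hP.eigenvalues_nonneg i) (dg_nonneg hQ i)

lemma psd_diag {W : Matrix (Fin n) (Fin n) ℂ} {d : Fin n → ℝ} (hd : ∀ i, 0 ≤ d i) :
    (W * diagonal (fun i => (d i : ℂ)) * Wᴴ).PosSemidef := by
  refine PosSemidef.mul_mul_conjTranspose_same ?_ _
  rw [posSemidef_diagonal_iff]
  intro i
  exact_mod_cast hd i

lemma psd_pow {X : Matrix (Fin n) (Fin n) ℂ} (hX : X.PosSemidef) (p : ℝ) :
    (matPow X p).PosSemidef := by
  obtain ⟨W, hW, hXW⟩ := spec hX.1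
  unfold matPow
  rw [cfc_conj hW hXW]
  exact psd_diag fun i => Real.rpow_nonneg (hX.eigenvalues_nonneg i) _

lemma pow_pow {X : Matrix (Fin n) (Fin n) ℂ} (hX : X.PosSemidef) {p q : ℝ} (hpq : p * q = 1) :
    matPow (matPow X p) q = X := by
  obtain ⟨W, hW, hXW⟩ := spec hX.1
  have h1 : matPow X p = W * diagonal (fun i => ((hX.1.eigenvalues i ^ p : ℝ) : ℂ)) * Wᴴ :=
    cfc_conj hW hXW _
  have h2 : matPow (matPow X p) q
      = W * diagonal (fun i => (((hX.1.eigenvalues i ^ p) ^ q : ℝ) : ℂ)) * Wᴴ :=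
    cfc_conj hW h1 _
  rw [h2]
  conv_rhs => rw [hXW]
  congr 3
  funext i
  rw [← Real.rpow_mul (hX.eigenvalues_nonneg i), hpq, Real.rpow_one]

lemma pow_mul_pow {X : Matrix (Fin n) (Fin n) ℂ} (hX : X.PosSemidef) {p : ℝ}
    (hp : p ∈ Set.Ioo (0 : ℝ) 1) : matPow X (1 - p) * matPow X p = X := by
  obtain ⟨W, hW, hXW⟩ := spec hX.1
  have h1 : matPow X p = W * diagonal (fun i => ((hX.1.eigenvalues i ^ p : ℝ) : ℂ)) * Wᴴ :=
    cfc_conj hW hXW _
  have h2 : matPow X (1 - p)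
      = W * diagonal (fun i => ((hX.1.eigenvalues i ^ (1 - p) : ℝ) : ℂ)) * Wᴴ :=
    cfc_conj hW hXW _
  rw [h1, h2]
  conv_rhs => rw [hXW]
  calc W * diagonal (fun i => ((hX.1.eigenvalues i ^ (1 - p) : ℝ) : ℂ)) * Wᴴ *
        (W * diagonal (fun i => ((hX.1.eigenvalues i ^ p : ℝ) : ℂ)) * Wᴴ)
      = W * diagonal (fun i => ((hX.1.eigenvalues i ^ (1 - p) : ℝ) : ℂ)) * (Wᴴ * W) *
        diagonal (fun i => ((hX.1.eigenvalues i ^ p : ℝ) : ℂ)) * Wᴴ := by
          simp only [Matrix.mul_assoc]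
    _ = W * (diagonal (fun i => ((hX.1.eigenvalues i ^ (1 - p) : ℝ) : ℂ)) *
        diagonal (fun i => ((hX.1.eigenvalues i ^ p : ℝ) : ℂ))) * Wᴴ := by
          rw [hW, Matrix.mul_one, Matrix.mul_assoc W]
    _ = _ := by
      rw [diagonal_mul_diagonal]
      congr 3
      funext i
      rw [← Complex.ofReal_mul]
      congr 1
      rcases eq_or_lt_of_le (hX.eigenvalues_nonneg i) with h | h
      · rw [← h, Real.zero_rpow (by linarith [hp.2] : (1 - p) ≠ 0), zero_mul]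
      · rw [← Real.rpow_add h]
        simp

/-- The inequality of Audenaert et al. (quantum Chernoff bound), proof of Ozawa. -/
lemma ozawa {p : ℝ} (hp : p ∈ Set.Ioo (0 : ℝ) 1) {X Y Z : Matrix (Fin n) (Fin n) ℂ}
    (hX : X.PosSemidef) (hY : Y.PosSemidef) (hZ : Z.PosSemidef)
    (hXYZ : (Y + Z - X).PosSemidef) :
    tr X - tr (matPow X (1 - p) * matPow Y p) ≤ tr Z := by
  have hp' : 1 - p ∈ Set.Ioo (0 : ℝ) 1 := ⟨by linarith [hp.2], by linarith [hp.1]⟩
  have hYW : (Y + Z - Y).PosSemidef := by rwa [add_sub_cancel_left]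
  have a := tr_mul_nonneg (psd_pow hX (1 - p)) (pow_mono hp hX hXYZ)
  have b := tr_mul_nonneg (pow_mono hp' hX hXYZ) (pow_mono hp hY hYW)
  have c := tr_mul_nonneg (pow_mono hp' hY hYW) (psd_pow hY p)
  have e1 := pow_mul_pow hX hp
  have e2 := pow_mul_pow hY hp
  have e3 := pow_mul_pow (hY.add hZ) hp
  rw [Matrix.mul_sub, tr_sub, e1] at a
  rw [Matrix.mul_sub, Matrix.sub_mul, Matrix.sub_mul, tr_sub, tr_sub, tr_sub, e3] at b
  rw [Matrix.sub_mul, tr_sub, e2] at c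
  rw [tr_add] at b
  linarith

/-- Young's inequality for traces. -/
lemma young {p : ℝ} (hp : p ∈ Set.Ioo (0 : ℝ) 1) {X C : Matrix (Fin n) (Fin n) ℂ}
    (hX : X.PosSemidef) (hC : C.PosSemidef) :
    tr (matPow X (1 - p) * C) ≤ (1 - p) * tr X + p * tr (matPow C (1 / p)) := by
  obtain ⟨W, hW, hXW⟩ := spec hX.1
  obtain ⟨U, hU, hCU⟩ := spec hC.1
  set x := hX.1.eigenvalues with hx
  set γ := hC.1.eigenvalues with hγ
  have hx0 : ∀ i, 0 ≤ x i := hX.eigenvalues_nonneg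
  have hγ0 : ∀ i, 0 ≤ γ i := hC.eigenvalues_nonneg
  have h1 : matPow X (1 - p) = W * diagonal (fun i => ((x i ^ (1 - p) : ℝ) : ℂ)) * Wᴴ :=
    cfc_conj hW hXW _
  have h2 : matPow C (1 / p) = U * diagonal (fun i => ((γ i ^ (1 / p) : ℝ) : ℂ)) * Uᴴ :=
    cfc_conj hU hCU _
  have h3 : ∀ i, dg W C i = ∑ j, wt W U i j * γ j := by
    intro i
    conv_lhs => rw [hCU]
    exact dg_eq_sum W U γ i
  have h4 : ∀ i, dg W (matPow C (1 / p)) i = ∑ j, wt W U i j * γ j ^ (1 / p) := by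
    intro i
    rw [h2]
    exact dg_eq_sum W U _ i
  have hp1 : 1 ≤ 1 / p := by
    rw [le_div_iff₀ hp.1]
    linarith [hp.2]
  have h5 : ∀ i, dg W C i ^ (1 / p) ≤ dg W (matPow C (1 / p)) i := by
    intro i
    rw [h3, h4]
    exact Real.rpow_arith_mean_le_arith_mean_rpow univ _ _ (fun j _ => wt_nonneg W U i j)
      (wt_row hW hU i) (fun j _ => hγ0 j) hp1
  have h6 : tr X = ∑ i, x i := by
    rw [← sum_dg hW X, dg_diag hW hXW]
  rw [tr_mul h1, ← sum_dg hW (matPow C (1 / p)), h6, mul_sum, mul_sum, ← sum_add_distrib]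
  refine sum_le_sum fun i _ => ?_
  have h7 : 0 ≤ dg W C i := dg_nonneg hC i
  have h8 := Real.geom_mean_le_arith_mean2_weighted (w₁ := 1 - p) (w₂ := p) (p₁ := x i)
    (p₂ := dg W C i ^ (1 / p)) (by linarith [hp.2]) hp.1.le (hx0 i) (Real.rpow_nonneg h7 _)
    (by ring)
  rw [← Real.rpow_mul h7, one_div_mul_cancel hp.1.ne', Real.rpow_one] at h8
  have h9 := mul_le_mul_of_nonneg_left (h5 i) hp.1.le
  linarith

lemma lq_one (a : Fin n → ℝ) : lq 1 a = ∑ i, |a i| := by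
  rw [lq_fin (by simp)]
  simp

/-- The main inequality. -/
lemma main {p : ℝ} (hp1 : 1 / 2 < p) (hp2 : p < 1) {X Y : Matrix (Fin n) (Fin n) ℂ}
    (hX : X.PosSemidef) (hY : Y.PosSemidef) {θ : ℝ} (h0 : 0 < θ) (h1 : θ ≤ 1) :
    schatten 1 (matPow (θ • matPow X p + (1 - θ) • matPow Y p) (1 / p) - Y)
      ≤ schatten 1 (X - Y) := by
  have hp0 : 0 < p := by linarith
  have hp : p ∈ Set.Ioo (0 : ℝ) 1 := ⟨hp0, hp2⟩
  have hr : 1 / p ∈ Set.Ioo (1 : ℝ) 2 := by
    constructor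
    · rw [lt_div_iff₀ hp0]; linarith
    · rw [div_lt_iff₀ hp0]; linarith
  have hXp := psd_pow hX p
  have hYp := psd_pow hY p
  set C := θ • matPow X p + (1 - θ) • matPow Y p with hCdef
  have hC : C.PosSemidef := (hXp.smul h0.le).add (hYp.smul (sub_nonneg.2 h1))
  set M := matPow C (1 / p) with hM
  have hMp : M.PosSemidef := psd_pow hC _
  have hH : (X - Y).IsHermitian := hX.1.sub hY.1
  have hH' : (M - Y).IsHermitian := hMp.1.sub hY.1
  rw [schatten_eq 1 hH, schatten_eq 1 hH', lq_one, lq_one]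
  obtain ⟨V, hV, hHV⟩ := spec hH
  obtain ⟨V', hV', hHV'⟩ := spec hH'
  set h := hH.eigenvalues with hh
  set h' := hH'.eigenvalues with hh'
  set Z := V * diagonal (fun i => ((max (h i) 0 : ℝ) : ℂ)) * Vᴴ with hZ
  have hZp : Z.PosSemidef := psd_diag fun i => le_max_right _ _
  have hZH : (Z - (X - Y)).PosSemidef := by
    have e : Z - (X - Y) = V * diagonal (fun i => ((max (h i) 0 - h i : ℝ) : ℂ)) * Vᴴ := by
      conv_lhs => rw [hHV, hZ]
      rw [← Matrix.sub_mul, ← Matrix.mul_sub, diagonal_sub]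
      congr 3
      funext i
      push_cast
      rfl
    rw [e]
    exact psd_diag fun i => sub_nonneg.2 (le_max_left _ _)
  have hXYZ : (Y + Z - X).PosSemidef := by
    have e : Y + Z - X = Z - (X - Y) := by abel
    rwa [e]
  have tZ : tr Z = ∑ i, max (h i) 0 := by
    rw [← sum_dg hV Z, dg_diag hV hZ]
  have tH : tr X - tr Y = ∑ i, h i := by
    rw [← tr_sub, ← sum_dg hV (X - Y), dg_diag hV hHV]
  have tH' : tr M - tr Y = ∑ i, h' i := by
    rw [← tr_sub, ← sum_dg hV' (M - Y), dg_diag hV' hHV']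
  have tZ0 : 0 ≤ tr Z := by
    rw [tZ]
    exact sum_nonneg fun i _ => le_max_right _ _
  have hoz := ozawa hp hX hY hZp hXYZ
  have hyo := young hp hX hC
  have hXC : tr (matPow X (1 - p) * C)
      = θ * tr X + (1 - θ) * tr (matPow X (1 - p) * matPow Y p) := by
    rw [hCdef, Matrix.mul_add, Matrix.mul_smul, Matrix.mul_smul, tr_add, tr_smul, tr_smul,
      pow_mul_pow hX hp]
  have hpp : p * (1 / p) = 1 := mul_one_div_cancel hp0.ne'
  have hcoef : ∀ i, h' i ≤ θ * dg V' Z i := by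
    intro i
    have e1 := pow_conv hr hXp hYp h0 h1 hV' i
    rw [pow_pow hX hpp, pow_pow hY hpp] at e1
    have e2 : dg V' (M - Y) i = h' i := by rw [dg_diag hV' hHV']
    rw [dg_sub, Pi.sub_apply] at e2
    have e3 := dg_nonneg (V := V') hZH i
    rw [dg_sub, dg_sub] at e3
    simp only [Pi.sub_apply] at e3
    have e4 : dg V' M i ≤ θ * dg V' X i + (1 - θ) * dg V' Y i := e1
    have e5 := mul_nonneg h0.le e3
    nlinarith
  have habs : ∀ i, |h' i| ≤ 2 * (θ * dg V' Z i) - h' i := by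
    intro i
    have e1 := hcoef i
    have e2 : 0 ≤ θ * dg V' Z i := mul_nonneg h0.le (dg_nonneg hZp i)
    rw [abs_le]
    constructor <;> linarith
  have hsum : ∑ i, |h' i| ≤ 2 * (θ * tr Z) - (tr M - tr Y) := by
    calc ∑ i, |h' i| ≤ ∑ i, (2 * (θ * dg V' Z i) - h' i) := sum_le_sum fun i _ => habs i
      _ = 2 * (θ * tr Z) - (tr M - tr Y) := by
        rw [sum_sub_distrib, ← mul_sum, ← mul_sum, sum_dg hV', tH']
  have habs2 : ∑ i, |h i| = 2 * tr Z - (tr X - tr Y) := by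
    rw [tZ, tH, mul_sum, ← sum_sub_distrib]
    refine sum_congr rfl fun i _ => ?_
    rcases le_total (h i) 0 with h3 | h3
    · rw [abs_of_nonpos h3, max_eq_right h3]; ring
    · rw [abs_of_nonneg h3, max_eq_left h3]; ring
  rw [habs2]
  refine hsum.trans ?_
  have hkey : p * (tr X - tr M) ≤ (1 - θ) * tr Z := by
    rw [hXC] at hyo
    have h1θ : 0 ≤ 1 - θ := sub_nonneg.2 h1
    have := mul_le_mul_of_nonneg_left hoz h1θ
    nlinarith
  have hfin : tr X - tr M ≤ 2 * ((1 - θ) * tr Z) := by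
    have h5 : 0 ≤ (1 - θ) * tr Z := mul_nonneg (sub_nonneg.2 h1) tZ0
    rcases le_total (tr X - tr M) 0 with h6 | h6
    · linarith
    · nlinarith
  nlinarith

end Pool.Agent.H422PM.TraceB
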