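import Pool.Agent.H422PM.TraceB

/-!
# Real symmetric two by two matrices and a counterexample family in the trace norm
-/

set_option autoImplicit false

namespace Pool.Agent.H422PM.TraceC

open Matrix Finset
open scoped ENNReal ComplexOrder
open Pool.Agent.Results.MP_9bce2c_an.SquareRootMean

/-! ### Real symmetric two by two matrices -/

/-- The symmetric matrix with entries `a, b, b, d`. -/
noncomputable def sym (a b d : ℝ) : Matrix (Fin 2) (Fin 2) ℂ :=
  !![(a : ℂ), (b : ℂ); (b : ℂ), (d : ℂ)]

theorem sym_add (a b d a' b' d' : ℝ) :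
    sym a b d + sym a' b' d' = sym (a + a') (b + b') (d + d') := by
  ext i j
  fin_cases i <;> fin_cases j <;> simp [sym]

theorem sym_sub (a b d a' b' d' : ℝ) :
    sym a b d - sym a' b' d' = sym (a - a') (b - b') (d - d') := by
  ext i j
  fin_cases i <;> fin_cases j <;> simp [sym]

theorem sym_smul (t a b d : ℝ) : t • sym a b d = sym (t * a) (t * b) (t * d) := by
  ext i j
  fin_cases i <;> fin_cases j <;> simp [sym]

theorem sym_conj (a b d : ℝ) : (sym a b d)ᴴ = sym a b d := by
  ext i j
  fin_cases i <;> fin_cases j <;> simp [sym, conjTranspose_apply]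

theorem sym_algebraMap (x : ℝ) :
    (algebraMap ℝ (Matrix (Fin 2) (Fin 2) ℂ)) x = sym x 0 x := by
  ext i j
  fin_cases i <;> fin_cases j <;> simp [sym, Matrix.algebraMap_matrix_apply]

theorem sym_det (a b d : ℝ) : (sym a b d).det = ((a * d - b ^ 2 : ℝ) : ℂ) := by
  simp [sym, det_fin_two]; ring

/-- The matrix with eigenvalues `α, β` and projection `(c, e, 1 - c)`. -/
noncomputable def spc (α β c e : ℝ) : Matrix (Fin 2) (Fin 2) ℂ :=
  sym (β + (α - β) * c) ((α - β) * e) (β + (α - β) * (1 - c))

theorem matPow_spc (α β c e p : ℝ) (hce : c * (1 - c) = e ^ 2) :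
    matPow (spc α β c e) p = spc (α ^ p) (β ^ p) c e := by
  unfold matPow
  by_cases hab : α = β
  · subst hab
    have e1 : spc α α c e = algebraMap ℝ (Matrix (Fin 2) (Fin 2) ℂ) α := by
      rw [sym_algebraMap]; unfold spc; congr 1 <;> ring
    have e2 : spc (α ^ p) (α ^ p) c e = algebraMap ℝ (Matrix (Fin 2) (Fin 2) ℂ) (α ^ p) := by
      rw [sym_algebraMap]; unfold spc; congr 1 <;> ring
    rw [e1, e2, cfc_algebraMap]
  · have hne : α - β ≠ 0 := sub_ne_zero.2 hab
    have hsa : IsSelfAdjoint (spc α β c e) := by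
      rw [IsSelfAdjoint, Matrix.star_eq_conjTranspose]; exact sym_conj _ _ _
    have hspec : ∀ x ∈ spectrum ℝ (spc α β c e), x = α ∨ x = β := by
      intro x hx
      by_contra hcon
      simp only [not_or] at hcon
      rw [spectrum.mem_iff] at hx
      apply hx
      rw [Matrix.isUnit_iff_isUnit_det, sym_algebraMap]
      unfold spc
      rw [sym_sub, sym_det, isUnit_iff_ne_zero]
      have e3 : (x - (β + (α - β) * c)) * (x - (β + (α - β) * (1 - c)))
          - (0 - (α - β) * e) ^ 2 = (x - α) * (x - β) := by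
        linear_combination ((α - β) ^ 2) * hce
      rw [e3]
      have : (x - α) * (x - β) ≠ 0 :=
        mul_ne_zero (sub_ne_zero.2 hcon.1) (sub_ne_zero.2 hcon.2)
      exact_mod_cast this
    set k := (α ^ p - β ^ p) / (α - β) with hk
    set m := β ^ p - k * β with hm
    have hkk : k * (α - β) = α ^ p - β ^ p := by rw [hk]; field_simp
    have hcongr : cfc (fun x : ℝ => x ^ p) (spc α β c e)
        = cfc (fun x : ℝ => k * x + m) (spc α β c e) := by
      apply cfc_congr
      intro x hx
      rcases hspec x hx with rfl | rfl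
      · simp only [hm]; linarith
      · simp only [hm]; ring
    rw [hcongr, cfc_add_const m (fun x => k * x) (spc α β c e), cfc_const_mul_id k (spc α β c e),
      sym_algebraMap]
    unfold spc
    rw [sym_smul, sym_add]
    congr 1
    · simp only [hm]; linear_combination c * hkk
    · linear_combination e * hkk
    · simp only [hm]; linear_combination (1 - c) * hkk

theorem posDef_spc (α β c e : ℝ) (hα : 0 < α) (hβ : 0 < β) (hce : c * (1 - c) = e ^ 2) :
    (spc α β c e).PosDef := by
  set B := spc (Real.sqrt α) (Real.sqrt β) c e with hB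
  have hBB : spc α β c e = Bᴴ * B := by
    rw [hB]
    unfold spc
    rw [sym_conj]
    have h1 := Real.mul_self_sqrt hα.le
    have h2 := Real.mul_self_sqrt hβ.le
    set a := Real.sqrt α
    set b := Real.sqrt β
    rw [← h1, ← h2]
    ext i j
    fin_cases i <;> fin_cases j
    · simp only [sym, Matrix.mul_apply, Fin.sum_univ_two, Fin.zero_eta, Matrix.of_apply,
        Matrix.cons_val_zero, Matrix.cons_val_one, Matrix.cons_val', Matrix.cons_val_fin_one]
      have : (b * b + (a * a - b * b) * c)
          = (b + (a - b) * c) * (b + (a - b) * c) + (a - b) * e * ((a - b) * e) := by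
        linear_combination ((a - b) ^ 2) * hce
      exact_mod_cast this
    · simp only [sym, Matrix.mul_apply, Fin.sum_univ_two, Fin.zero_eta, Fin.mk_one,
        Matrix.of_apply,
        Matrix.cons_val_zero, Matrix.cons_val_one, Matrix.cons_val', Matrix.cons_val_fin_one]
      have : ((a * a - b * b) * e)
          = (b + (a - b) * c) * ((a - b) * e) + (a - b) * e * (b + (a - b) * (1 - c)) := by
        ring
      exact_mod_cast this
    · simp only [sym, Matrix.mul_apply, Fin.sum_univ_two, Fin.zero_eta, Fin.mk_one,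
        Matrix.of_apply,
        Matrix.cons_val_zero, Matrix.cons_val_one, Matrix.cons_val', Matrix.cons_val_fin_one]
      have : ((a * a - b * b) * e)
          = (a - b) * e * (b + (a - b) * c) + (b + (a - b) * (1 - c)) * ((a - b) * e) := by
        ring
      exact_mod_cast this
    · simp only [sym, Matrix.mul_apply, Fin.sum_univ_two, Fin.mk_one, Matrix.of_apply,
        Matrix.cons_val_zero, Matrix.cons_val_one, Matrix.cons_val', Matrix.cons_val_fin_one]
      have : (b * b + (a * a - b * b) * (1 - c))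
          = (a - b) * e * ((a - b) * e) + (b + (a - b) * (1 - c)) * (b + (a - b) * (1 - c)) := by
        linear_combination ((a - b) ^ 2) * hce
      exact_mod_cast this
  rw [hBB]
  apply Matrix.PosDef.conjTranspose_mul_self
  rw [Matrix.mulVec_injective_iff_isUnit, Matrix.isUnit_iff_isUnit_det, hB]
  unfold spc
  rw [sym_det, isUnit_iff_ne_zero]
  have h1 : 0 < Real.sqrt α := Real.sqrt_pos.2 hα
  have h2 : 0 < Real.sqrt β := Real.sqrt_pos.2 hβ
  set a := Real.sqrt α
  set b := Real.sqrt β
  have e3 : (b + (a - b) * c) * (b + (a - b) * (1 - c)) - ((a - b) * e) ^ 2 = a * b := by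
    linear_combination ((a - b) ^ 2) * hce
  rw [e3]
  have : a * b ≠ 0 := (mul_pos h1 h2).ne'
  exact_mod_cast this

/-! ### Schatten norms of symmetric two by two matrices -/

theorem singVal_sum (a b d : ℝ) (hD : a * d - b ^ 2 < 0) :
    singVal (sym a b d) 0 + singVal (sym a b d) 1
        = Real.sqrt ((a + d) ^ 2 - 4 * (a * d - b ^ 2)) ∧
      (singVal (sym a b d) 0 - singVal (sym a b d) 1) ^ 2 = (a + d) ^ 2 ∧
      0 ≤ singVal (sym a b d) 0 ∧ 0 ≤ singVal (sym a b d) 1 := by
  set N := (sym a b d)ᴴ * sym a b d with hN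
  have hH := isHermitian_conjTranspose_mul_self (sym a b d)
  have hps : N.PosSemidef := Matrix.posSemidef_conjTranspose_mul_self _
  have e0 : 0 ≤ hH.eigenvalues 0 := hps.eigenvalues_nonneg 0
  have e1 : 0 ≤ hH.eigenvalues 1 := hps.eigenvalues_nonneg 1
  have htr : hH.eigenvalues 0 + hH.eigenvalues 1 = a ^ 2 + 2 * b ^ 2 + d ^ 2 := by
    have h := hH.trace_eq_sum_eigenvalues
    rw [Fin.sum_univ_two] at h
    have h2 : ((sym a b d)ᴴ * sym a b d).trace = ((a ^ 2 + 2 * b ^ 2 + d ^ 2 : ℝ) : ℂ) := by
      rw [sym_conj]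
      simp [sym, Matrix.trace, Fin.sum_univ_two, Matrix.mul_apply]
      ring
    rw [h2] at h
    have h3 : ((a ^ 2 + 2 * b ^ 2 + d ^ 2 : ℝ) : ℂ)
        = ((hH.eigenvalues 0 + hH.eigenvalues 1 : ℝ) : ℂ) := by
      rw [h]; push_cast; rfl
    exact (Complex.ofReal_injective h3).symm
  have hdet : hH.eigenvalues 0 * hH.eigenvalues 1 = (a * d - b ^ 2) ^ 2 := by
    have h := hH.det_eq_prod_eigenvalues
    rw [Fin.prod_univ_two] at h
    have h2 : ((sym a b d)ᴴ * sym a b d).det = (((a * d - b ^ 2) ^ 2 : ℝ) : ℂ) := by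
      rw [sym_conj, Matrix.det_mul, sym_det]
      push_cast
      ring
    rw [h2] at h
    have h3 : (((a * d - b ^ 2) ^ 2 : ℝ) : ℂ)
        = ((hH.eigenvalues 0 * hH.eigenvalues 1 : ℝ) : ℂ) := by
      rw [h]; push_cast; rfl
    exact (Complex.ofReal_injective h3).symm
  have s0 : singVal (sym a b d) 0 = Real.sqrt (hH.eigenvalues 0) := rfl
  have s1 : singVal (sym a b d) 1 = Real.sqrt (hH.eigenvalues 1) := rfl
  have n0 := Real.sqrt_nonneg (hH.eigenvalues 0)
  have n1 := Real.sqrt_nonneg (hH.eigenvalues 1)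
  have q0 := Real.sq_sqrt e0
  have q1 := Real.sq_sqrt e1
  have hprod : Real.sqrt (hH.eigenvalues 0) * Real.sqrt (hH.eigenvalues 1)
      = -(a * d - b ^ 2) := by
    rw [← Real.sqrt_mul e0, hdet, Real.sqrt_sq_eq_abs, abs_of_neg hD]
  rw [s0, s1]
  refine ⟨?_, ?_, n0, n1⟩
  · symm
    rw [Real.sqrt_eq_iff_mul_self_eq (by nlinarith [sq_nonneg (a + d)]) (add_nonneg n0 n1)]
    nlinarith
  · nlinarith


theorem schatten_one (a b d : ℝ) (hD : a * d - b ^ 2 < 0) :
    schatten 1 (sym a b d) = Real.sqrt ((a + d) ^ 2 - 4 * (a * d - b ^ 2)) := by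
  obtain ⟨h1, h2, h3, h4⟩ := singVal_sum a b d hD
  unfold schatten
  rw [PiLp.norm_eq_sum (by simp), Fin.sum_univ_two]
  simp only [Real.norm_eq_abs, ENNReal.toReal_one, Real.rpow_one, div_one]
  rw [abs_of_nonneg h3, abs_of_nonneg h4]
  exact h1

end Pool.Agent.H422PM.TraceC
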