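import Mathlib

/-!
# Parameters for the counterexample family
-/

set_option autoImplicit false

namespace Pool.Agent.H422PM.TraceD

theorem params {r : ℝ} (hr : 4 < r) : ∃ l m σ u : ℝ, 0 < m ∧ m < 1 ∧ 1 < l ∧ 0 < σ ∧ 0 < u ∧
    u < 1 ∧ l + m = 1 + σ ∧ l * m = σ * (1 - u) ∧
    (1 - 2 * u) * (l - m) < (l ^ r - m ^ r) * (1 - 2 * u - σ) := by
  set κ : ℝ := (r - 4) / (2 * r) with hκ
  have hr0 : 0 < r := by linarith
  have hκr : κ * r = (r - 4) / 2 := by rw [hκ]; field_simp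
  have hκ0 : 0 < κ := div_pos (by linarith) (by linarith)
  have hκ1 : κ < 1 / 2 := by
    rw [hκ, div_lt_iff₀ (by linarith)]; linarith
  clear_value κ
  set K1 : ℝ := κ * (r - 4) / 2 with hK1
  set K2 : ℝ := 5 / 8 * (r - 4) + 1 with hK2
  have hK1p : 0 < K1 := by rw [hK1]; have : 0 < r - 4 := by linarith
                           positivity
  have hK2p : 0 < K2 := by rw [hK2]; linarith
  set m : ℝ := K1 / (4 * (K2 + K1 + 1)) with hm
  have hm0 : 0 < m := by positivity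
  have hm1 : m ≤ 1 / 4 := by
    rw [hm, div_le_iff₀ (by positivity)]; linarith
  have hmK : m * K2 < K1 := by
    have : m * (4 * (K2 + K1 + 1)) = K1 := by rw [hm]; field_simp
    nlinarith
  have hκ1' : 0 < 1 + κ := by linarith
  refine ⟨1 + κ * m, m, (1 + κ) * m, κ * (1 - m) / (1 + κ), hm0, by linarith, ?_, by positivity,
    ?_, ?_, by ring, ?_, ?_⟩
  · have := mul_pos hκ0 hm0
    linarith
  · exact div_pos (mul_pos hκ0 (by linarith)) hκ1'
  · rw [div_lt_one hκ1']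
    nlinarith
  · field_simp
    ring
  · set u := κ * (1 - m) / (1 + κ) with hu
    have huκ : u * (1 + κ) = κ * (1 - m) := by rw [hu]; field_simp
    have e1 : (1 - 2 * u) * (1 + κ) = 1 - κ + 2 * κ * m := by linear_combination (-2 : ℝ) * huκ
    have e2 : (1 - 2 * u - (1 + κ) * m) * (1 + κ) = 1 - κ - (1 + κ ^ 2) * m := by
      linear_combination (-2 : ℝ) * huκ
    have hb : 1 + r * (κ * m) ≤ (1 + κ * m) ^ r :=
      one_add_mul_self_le_rpow_one_add (by have := mul_pos hκ0 hm0; linarith) (by linarith)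
    have hmr : m ^ r ≤ m ^ 2 := by
      have := Real.rpow_le_rpow_of_exponent_ge hm0 (by linarith) (show (2 : ℝ) ≤ r by linarith)
      rwa [Real.rpow_two] at this
    have hpos : 0 < 1 - κ - (1 + κ ^ 2) * m := by nlinarith
    have hlow : 1 + r * (κ * m) - m ^ 2 ≤ (1 + κ * m) ^ r - m ^ r := by linarith
    have hP : (1 - κ + 2 * κ * m) * (1 + κ * m - m)
        < (1 + r * (κ * m) - m ^ 2) * (1 - κ - (1 + κ ^ 2) * m) := by
      have e3 : (1 + r * (κ * m) - m ^ 2) * (1 - κ - (1 + κ ^ 2) * m)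
          - (1 - κ + 2 * κ * m) * (1 + κ * m - m)
          = m * ((κ * r) * (1 - κ) - 4 * κ) - m ^ 2 * ((κ * r) * (1 + κ ^ 2) + (1 - κ)
            - 2 * κ * (1 - κ)) + m ^ 3 * (1 + κ ^ 2) := by ring
      have e4 : (κ * r) * (1 - κ) - 4 * κ = K1 := by
        rw [hK1]
        linear_combination (-κ) * hκr
      have e5 : (κ * r) * (1 + κ ^ 2) + (1 - κ) - 2 * κ * (1 - κ) ≤ K2 := by
        rw [hκr, hK2]
        have : κ ^ 2 ≤ 1 / 4 := by nlinarith
        have h4 : 0 < r - 4 := by linarith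
        nlinarith [mul_nonneg h4.le (sub_nonneg.2 this), mul_pos hκ0 (by linarith : 0 < 1 - κ)]
      have e6 : 0 < m ^ 3 * (1 + κ ^ 2) := by positivity
      have e7 : m ^ 2 * ((κ * r) * (1 + κ ^ 2) + (1 - κ) - 2 * κ * (1 - κ)) ≤ m ^ 2 * K2 :=
        mul_le_mul_of_nonneg_left e5 (by positivity)
      have e8 : m ^ 2 * K2 < m * K1 := by
        have := mul_lt_mul_of_pos_left hmK hm0
        linarith
      rw [e4] at e3
      linarith
    have h5 : (1 + r * (κ * m) - m ^ 2) * (1 - κ - (1 + κ ^ 2) * m)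
        ≤ ((1 + κ * m) ^ r - m ^ r) * (1 - κ - (1 + κ ^ 2) * m) :=
      mul_le_mul_of_nonneg_right hlow hpos.le
    have h6 : ((1 - 2 * u) * (1 + κ * m - m)) * (1 + κ)
        < (((1 + κ * m) ^ r - m ^ r) * (1 - 2 * u - (1 + κ) * m)) * (1 + κ) := by
      calc ((1 - 2 * u) * (1 + κ * m - m)) * (1 + κ)
          = ((1 - 2 * u) * (1 + κ)) * (1 + κ * m - m) := by ring
        _ = (1 - κ + 2 * κ * m) * (1 + κ * m - m) := by rw [e1]
        _ < ((1 + κ * m) ^ r - m ^ r) * (1 - κ - (1 + κ ^ 2) * m) := hP.trans_le h5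
        _ = _ := by rw [← e2]; ring
    exact lt_of_mul_lt_mul_right h6 hκ1'.le

end Pool.Agent.H422PM.TraceD
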