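import Pool.Agent.H422PM.TraceC
import Pool.Agent.H422PM.TraceD

/-!
# MP_9bce2c_an: counterexamples in the trace norm for exponents below `1/4`

For `0 < p < 1/4` the weighted power mean with exponent `p` is not monotonic with respect to
`δ_1`.  With `r = 1/p > 4` the counterexamples are `X = A^r`, `Y = B^r` with
`(1 - s) A = e₁ e₁ᵀ + s`, `s B = σ v vᵀ + s²` and `s` small.
-/

set_option autoImplicit false

namespace Pool.Agent.H422PM.TraceE

open Matrix Finset
open scoped ENNReal ComplexOrder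
open Pool.Agent.Results.MP_9bce2c_an.SquareRootMean Pool.Agent.H422PM.TraceC

/-- The counterexamples. -/
theorem counter (p : ℝ) (hp0 : 0 < p) (hp1 : p < 1 / 4) :
    ∃ X Y : Matrix (Fin 2) (Fin 2) ℂ, X.PosDef ∧ Y.PosDef ∧ ∃ t ∈ Set.Icc (0 : ℝ) 1,
      schatten 1 (powerMean p 1 X Y - Y) < schatten 1 (powerMean p t X Y - Y) := by
  by_contra hcon
  have hmon : ∀ X Y : Matrix (Fin 2) (Fin 2) ℂ, X.PosDef → Y.PosDef → ∀ t ∈ Set.Icc (0 : ℝ) 1,
      schatten 1 (powerMean p t X Y - Y) ≤ schatten 1 (powerMean p 1 X Y - Y) := by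
    intro X Y hX hY t ht
    by_contra hlt
    exact hcon ⟨X, Y, hX, hY, t, ht, not_le.1 hlt⟩
  have hr4 : 4 < 1 / p := by
    rw [lt_div_iff₀ hp0]; linarith
  obtain ⟨l, m, σ, u, hm0, hm1, hl1, hσ, hu0, hu1, hsum, hprod, hkey⟩ :=
    Pool.Agent.H422PM.TraceD.params hr4
  set r := 1 / p with hr
  have hr0 : 0 < r := by linarith
  have hpr : r * p = 1 := one_div_mul_cancel hp0.ne'
  have hlm : 0 < l - m := by linarith
  set e := Real.sqrt (u * (1 - u)) with he
  have hu1' : 0 < 1 - u := by linarith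
  have he2 : e ^ 2 = u * (1 - u) := Real.sq_sqrt (by positivity)
  have hU : u * (1 - u) = e ^ 2 := he2.symm
  set w := (1 + σ * u - m) / (l - m) with hw
  set f := σ * e / (l - m) with hf
  have hwT : w * (l - m) = 1 + σ * u - m := by rw [hw]; field_simp
  have hfT : f * (l - m) = σ * e := by rw [hf]; field_simp
  have hW : w * (1 - w) = f ^ 2 := by
    have hT2 : (l - m) ^ 2 ≠ 0 := (pow_pos hlm 2).ne'
    have : (w * (1 - w)) * (l - m) ^ 2 = f ^ 2 * (l - m) ^ 2 := by
      have e1 : (w * (1 - w)) * (l - m) ^ 2 = (w * (l - m)) * ((l - m) - w * (l - m)) := by ring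
      have e2 : f ^ 2 * (l - m) ^ 2 = (f * (l - m)) ^ 2 := by ring
      rw [e1, e2, hwT, hfT]
      have hl : l = 1 + σ - m := by linarith
      rw [hl] at hprod ⊢
      linear_combination (-σ ^ 2) * he2 - hprod
    exact mul_right_cancel₀ hT2 this
  have h1U : (1 : ℝ) * (1 - 1) = 0 ^ 2 := by norm_num
  -- powers
  let φ : ℝ → ℝ := fun x => x ^ r
  have hφc : ∀ g : ℝ → ℝ, ContinuousAt g 0 → ContinuousAt (fun s => φ (g s)) 0 := fun g hg =>
    hg.rpow_const (Or.inr hr0.le)
  have hφ0 : φ 0 = 0 := Real.zero_rpow hr0.ne'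
  have hφ1 : φ 1 = 1 := Real.one_rpow r
  -- eigenvalues as functions of s
  let x1 : ℝ → ℝ := fun s => φ ((1 + s) / (1 - s))
  let x2 : ℝ → ℝ := fun s => φ (s / (1 - s))
  let c1 : ℝ → ℝ := fun s => φ (l + s + s ^ 2)
  let c2 : ℝ → ℝ := fun s => φ (m + s + s ^ 2)
  let b1 : ℝ → ℝ := fun s => φ (σ + s ^ 2)
  let z : ℝ → ℝ := fun s => φ s
  have hid : ContinuousAt (fun s : ℝ => s) 0 := continuousAt_id
  have hx1 : ContinuousAt x1 0 := hφc _ (by
    apply ContinuousAt.div (by fun_prop) (by fun_prop) (by norm_num))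
  have hx2 : ContinuousAt x2 0 := hφc _ (by
    apply ContinuousAt.div (by fun_prop) (by fun_prop) (by norm_num))
  have hc1 : ContinuousAt c1 0 := hφc _ (by fun_prop)
  have hc2 : ContinuousAt c2 0 := hφc _ (by fun_prop)
  have hb1 : ContinuousAt b1 0 := hφc _ (by fun_prop)
  have hz : ContinuousAt z 0 := hφc _ hid
  -- the difference of squared norms, times s^r
  let dM : ℝ → ℝ := fun s => (c1 s - c2 s) * ((1 - 2 * u) * (2 * w - 1) - 4 * e * f)
  let dX : ℝ → ℝ := fun s => (x1 s - x2 s) * (1 - 2 * u)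
  let H : ℝ → ℝ := fun s => z s * ((c1 s - c2 s) ^ 2 * ((2 * w - 1) ^ 2 + 4 * f ^ 2)
    - (x1 s - x2 s) ^ 2) + 2 * (b1 s - z s * z s) * (dM s - dX s)
  have hH : ContinuousAt H 0 := by
    refine (hz.mul ((((hc1.sub hc2).pow 2).mul continuousAt_const).sub
      ((hx1.sub hx2).pow 2))).add ((continuousAt_const.mul (hb1.sub (hz.mul hz))).mul ?_)
    exact (((hc1.sub hc2).mul continuousAt_const).sub ((hx1.sub hx2).mul continuousAt_const))
  have z0 : z 0 = 0 := hφ0
  have v1 : x1 0 = 1 := by simp only [x1]; norm_num [hφ1]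
  have v2 : x2 0 = 0 := by simp only [x2]; norm_num [hφ0]
  have v3 : c1 0 = l ^ r := by simp [c1, φ]
  have v4 : c2 0 = m ^ r := by simp [c2, φ]
  have v5 : b1 0 = σ ^ r := by simp [b1, φ]
  have hH0 : 0 < H 0 := by
    have e1 : H 0 = 2 * σ ^ r * ((l ^ r - m ^ r) * ((1 - 2 * u) * (2 * w - 1) - 4 * e * f)
        - (1 - 2 * u)) := by
      simp only [H, dM, dX, z0, v1, v2, v3, v4, v5]; ring
    have e2 : ((1 - 2 * u) * (2 * w - 1) - 4 * e * f) * (l - m) = 1 - 2 * u - σ := by
      have e3 : ((1 - 2 * u) * (2 * w - 1) - 4 * e * f) * (l - m)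
          = (1 - 2 * u) * (2 * (w * (l - m)) - (l - m)) - 4 * e * (f * (l - m)) := by ring
      rw [e3, hwT, hfT]
      linear_combination (-4 * σ) * he2 - (1 - 2 * u) * hsum
    have e4 : 0 < (l ^ r - m ^ r) * ((1 - 2 * u) * (2 * w - 1) - 4 * e * f) - (1 - 2 * u) := by
      have e5 : ((l ^ r - m ^ r) * ((1 - 2 * u) * (2 * w - 1) - 4 * e * f) - (1 - 2 * u))
          * (l - m) = (l ^ r - m ^ r) * (1 - 2 * u - σ) - (1 - 2 * u) * (l - m) := by
        rw [← e2]; ring
      have e6 : 0 < ((l ^ r - m ^ r) * ((1 - 2 * u) * (2 * w - 1) - 4 * e * f) - (1 - 2 * u))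
          * (l - m) := by rw [e5]; linarith
      exact (pos_iff_pos_of_mul_pos e6).2 hlm
    rw [e1]
    have := Real.rpow_pos_of_pos hσ r
    positivity
  -- determinants, times s^r
  let DX : ℝ → ℝ := fun s => z s * (x1 s * x2 s) + b1 s * z s
    - b1 s * (x1 s * (1 - u) + x2 s * u) - z s * z s * (x1 s * u + x2 s * (1 - u))
  let P : ℝ := (1 - u) * w + u * (1 - w) - 2 * e * f
  let DM : ℝ → ℝ := fun s => z s * (c1 s * c2 s) + b1 s * z s
    - b1 s * (c1 s * P + c2 s * (1 - P)) - z s * z s * (c1 s * (1 - P) + c2 s * P)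
  have hDX : ContinuousAt DX 0 := by
    refine (((hz.mul (hx1.mul hx2)).add (hb1.mul hz)).sub (hb1.mul
      ((hx1.mul continuousAt_const).add (hx2.mul continuousAt_const)))).sub
      ((hz.mul hz).mul ((hx1.mul continuousAt_const).add (hx2.mul continuousAt_const)))
  have hDM : ContinuousAt DM 0 := by
    refine (((hz.mul (hc1.mul hc2)).add (hb1.mul hz)).sub (hb1.mul
      ((hc1.mul continuousAt_const).add (hc2.mul continuousAt_const)))).sub
      ((hz.mul hz).mul ((hc1.mul continuousAt_const).add (hc2.mul continuousAt_const)))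
  have hσr := Real.rpow_pos_of_pos hσ r
  have hDX0 : DX 0 < 0 := by
    simp only [DX, z0, v1, v2, v5]
    nlinarith [mul_pos hσr hu1']
  have hP1 : P * (l - m) = (1 - u) - m := by
    have e3 : P * (l - m) = (1 - u) * (w * (l - m)) + u * ((l - m) - w * (l - m))
        - 2 * e * (f * (l - m)) := by simp only [P]; ring
    rw [e3, hwT, hfT]
    linear_combination (-2 * σ) * he2 + u * hsum
  have hDM0 : DM 0 < 0 := by
    simp only [DM, z0, v3, v4, v5]
    have hlr := Real.rpow_pos_of_pos (by linarith : 0 < l) r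
    have hmr := Real.rpow_pos_of_pos hm0 r
    have hmσ : m ≤ 1 - u := by
      -- m l = σ (1 - u) and σ = l + m - 1 < l
      have : m * l = σ * (1 - u) := by linarith
      nlinarith
    have hP0 : 0 ≤ P := by
      by_contra hneg
      have : P * (l - m) < 0 := mul_neg_of_neg_of_pos (not_le.1 hneg) hlm
      linarith
    have hP2 : P < 1 := by
      by_contra hge
      have : l - m ≤ P * (l - m) := by nlinarith [not_lt.1 hge]
      linarith
    have h1 : 0 < l ^ r * P + m ^ r * (1 - P) := by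
      have a1 : 0 ≤ l ^ r * P := mul_nonneg hlr.le hP0
      have a2 : 0 < m ^ r * (1 - P) := mul_pos hmr (by linarith)
      linarith
    have h2 := mul_pos hσr h1
    linarith
  have ev1 : ∀ᶠ s in nhds (0 : ℝ), 0 < H s := hH.eventually (lt_mem_nhds hH0)
  have ev2 : ∀ᶠ s in nhds (0 : ℝ), DX s < 0 := hDX.eventually (gt_mem_nhds hDX0)
  have ev3 : ∀ᶠ s in nhds (0 : ℝ), DM s < 0 := hDM.eventually (gt_mem_nhds hDM0)
  have ev4 : ∀ᶠ s in nhds (0 : ℝ), s < 1 := gt_mem_nhds (by norm_num)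
  obtain ⟨s, ⟨hs1, hs2, hs3, hs4⟩, hs⟩ := (((ev1.and (ev2.and (ev3.and ev4))).filter_mono
    (nhdsWithin_le_nhds (s := Set.Ioi (0 : ℝ)))).and self_mem_nhdsWithin).exists
  have hs0 : (0 : ℝ) < s := hs
  have h1s : 0 < 1 - s := by linarith
  set β := φ (σ / s + s) with hβ
  have hzs : 0 < z s := Real.rpow_pos_of_pos hs0 r
  have hβz : z s * β = b1 s := by
    simp only [z, b1, hβ, φ]
    rw [← Real.mul_rpow hs0.le (by positivity)]
    congr 1
    field_simp
  -- the matrices
  let X := spc (x1 s) (x2 s) 1 0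
  let Y := spc β (z s) u e
  have hφpos : ∀ x, 0 < x → 0 < φ x := fun x hx => Real.rpow_pos_of_pos hx r
  have hφp : ∀ x, 0 < x → φ x ^ p = x := by
    intro x hx
    simp only [φ]
    rw [← Real.rpow_mul hx.le, hpr, Real.rpow_one]
  have hX : X.PosDef := posDef_spc _ _ _ _ (hφpos _ (by positivity)) (hφpos _ (by positivity)) h1U
  have hY : Y.PosDef := posDef_spc _ _ _ _ (hφpos _ (by positivity)) (hφpos _ hs0) hU
  have hXp : matPow X p = spc ((1 + s) / (1 - s)) (s / (1 - s)) 1 0 := by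
    simp only [X, x1, x2]
    rw [matPow_spc _ _ _ _ _ h1U, hφp _ (by positivity), hφp _ (by positivity)]
  have hYp : matPow Y p = spc (σ / s + s) s u e := by
    simp only [Y, hβ, z]
    rw [matPow_spc _ _ _ _ _ hU, hφp _ (by positivity), hφp _ hs0]
  have hm1' : powerMean p 1 X Y = X := by
    unfold powerMean
    rw [sub_self, zero_smul, add_zero, one_smul, hXp, matPow_spc _ _ _ _ _ h1U]
  have hmt : powerMean p (1 - s) X Y = spc (c1 s) (c2 s) w f := by
    unfold powerMean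
    have hmid : (1 - s) • matPow X p + (1 - (1 - s)) • matPow Y p
        = spc (l + s + s ^ 2) (m + s + s ^ 2) w f := by
      rw [hXp, hYp]
      unfold spc
      rw [sym_smul, sym_smul, sym_add]
      have a1 : (1 - s) * ((1 + s) / (1 - s)) = 1 + s := by field_simp
      have a2 : (1 - s) * (s / (1 - s)) = s := by field_simp
      have a3 : s * (σ / s) = σ := by field_simp
      congr 1
      · linear_combination a1 + u * a3 - hwT
      · linear_combination e * a3 - hfT
      · linear_combination a2 + (1 - u) * a3 + hwT - hsum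
    rw [hmid, matPow_spc _ _ _ _ _ hW]
  have hmono := hmon X Y hX hY (1 - s) ⟨h1s.le, by linarith⟩
  simp only [hm1', hmt] at hmono
  have hBt : spc (c1 s) (c2 s) w f - Y
      = sym (c2 s + (c1 s - c2 s) * w - (z s + (β - z s) * u))
          ((c1 s - c2 s) * f - (β - z s) * e)
          (c2 s + (c1 s - c2 s) * (1 - w) - (z s + (β - z s) * (1 - u))) := by
    simp only [Y]
    unfold spc
    rw [sym_sub]
  have hB1 : X - Y = sym (x2 s + (x1 s - x2 s) * 1 - (z s + (β - z s) * u))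
      ((x1 s - x2 s) * 0 - (β - z s) * e)
      (x2 s + (x1 s - x2 s) * (1 - 1) - (z s + (β - z s) * (1 - u))) := by
    simp only [X, Y]
    unfold spc
    rw [sym_sub]
  have hdX : (x2 s + (x1 s - x2 s) * 1 - (z s + (β - z s) * u))
      * (x2 s + (x1 s - x2 s) * (1 - 1) - (z s + (β - z s) * (1 - u)))
      - ((x1 s - x2 s) * 0 - (β - z s) * e) ^ 2 < 0 := by
    have e1 : z s * ((x2 s + (x1 s - x2 s) * 1 - (z s + (β - z s) * u))
      * (x2 s + (x1 s - x2 s) * (1 - 1) - (z s + (β - z s) * (1 - u)))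
      - ((x1 s - x2 s) * 0 - (β - z s) * e) ^ 2) = DX s := by
      simp only [DX]
      rw [← hβz]
      linear_combination (-(z s) * (β - z s) ^ 2) * he2
    by_contra hneg
    have := mul_nonneg hzs.le (not_lt.1 hneg)
    linarith
  have hdM : (c2 s + (c1 s - c2 s) * w - (z s + (β - z s) * u))
      * (c2 s + (c1 s - c2 s) * (1 - w) - (z s + (β - z s) * (1 - u)))
      - ((c1 s - c2 s) * f - (β - z s) * e) ^ 2 < 0 := by
    have e1 : z s * ((c2 s + (c1 s - c2 s) * w - (z s + (β - z s) * u))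
      * (c2 s + (c1 s - c2 s) * (1 - w) - (z s + (β - z s) * (1 - u)))
      - ((c1 s - c2 s) * f - (β - z s) * e) ^ 2) = DM s := by
      simp only [DM, P]
      rw [← hβz]
      linear_combination (-(z s) * (β - z s) ^ 2) * he2 + (z s) * (c1 s - c2 s) ^ 2 * hW
    by_contra hneg
    have := mul_nonneg hzs.le (not_lt.1 hneg)
    linarith
  rw [hBt, hB1, schatten_one _ _ _ hdX, schatten_one _ _ _ hdM] at hmono
  have hlt := Real.sqrt_lt_sqrt (x := (x2 s + (x1 s - x2 s) * 1 - (z s + (β - z s) * u)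
      + (x2 s + (x1 s - x2 s) * (1 - 1) - (z s + (β - z s) * (1 - u)))) ^ 2
      - 4 * ((x2 s + (x1 s - x2 s) * 1 - (z s + (β - z s) * u))
      * (x2 s + (x1 s - x2 s) * (1 - 1) - (z s + (β - z s) * (1 - u)))
      - ((x1 s - x2 s) * 0 - (β - z s) * e) ^ 2))
    (y := (c2 s + (c1 s - c2 s) * w - (z s + (β - z s) * u)
      + (c2 s + (c1 s - c2 s) * (1 - w) - (z s + (β - z s) * (1 - u)))) ^ 2
      - 4 * ((c2 s + (c1 s - c2 s) * w - (z s + (β - z s) * u))
      * (c2 s + (c1 s - c2 s) * (1 - w) - (z s + (β - z s) * (1 - u)))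
      - ((c1 s - c2 s) * f - (β - z s) * e) ^ 2))
    (by nlinarith [sq_nonneg (x2 s + (x1 s - x2 s) * 1 - (z s + (β - z s) * u)
      + (x2 s + (x1 s - x2 s) * (1 - 1) - (z s + (β - z s) * (1 - u))))]) (by
    have e1 : z s * (((c2 s + (c1 s - c2 s) * w - (z s + (β - z s) * u)
      + (c2 s + (c1 s - c2 s) * (1 - w) - (z s + (β - z s) * (1 - u)))) ^ 2
      - 4 * ((c2 s + (c1 s - c2 s) * w - (z s + (β - z s) * u))
      * (c2 s + (c1 s - c2 s) * (1 - w) - (z s + (β - z s) * (1 - u)))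
      - ((c1 s - c2 s) * f - (β - z s) * e) ^ 2))
      - ((x2 s + (x1 s - x2 s) * 1 - (z s + (β - z s) * u)
      + (x2 s + (x1 s - x2 s) * (1 - 1) - (z s + (β - z s) * (1 - u)))) ^ 2
      - 4 * ((x2 s + (x1 s - x2 s) * 1 - (z s + (β - z s) * u))
      * (x2 s + (x1 s - x2 s) * (1 - 1) - (z s + (β - z s) * (1 - u)))
      - ((x1 s - x2 s) * 0 - (β - z s) * e) ^ 2))) = H s := by
      simp only [H, dM, dX]
      rw [← hβz]
      ring
    by_contra hneg
    have := mul_nonpos_of_nonneg_of_nonpos hzs.le (sub_nonpos.2 (not_lt.1 hneg))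
    linarith)
  exact absurd hmono (not_le.2 hlt)

end Pool.Agent.H422PM.TraceE
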